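import Pool.Agent.MBX.Stmts

/-!
# MBX row VIR: the virial inequality
-/

set_option autoImplicit false
set_option linter.unusedSectionVars false

open MeasureTheory Complex ProbabilityTheory

namespace Pool.Agent.MBX.H40

open Pool.Agent.Helper49_Pauli
open Pool.Agent.Loc (γn PB)

/-! ### spinors -/

theorem pair_eq (u v : S2) : pair u v = ∑ s, ((u s).re * (v s).re + (u s).im * (v s).im) := by
  unfold pair
  rw [Complex.re_sum]
  refine Finset.sum_congr rfl fun s _ => ?_
  simp [Complex.mul_re]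

theorem nsq_eq (u : S2) : nsq u = ∑ s, ((u s).re * (u s).re + (u s).im * (u s).im) := by
  unfold nsq
  refine Finset.sum_congr rfl fun s _ => ?_
  rw [Complex.sq_norm, Complex.normSq_apply]

theorem pair_sq_le (u v : S2) : pair u v ^ 2 ≤ nsq u * nsq v := by
  rw [pair_eq, nsq_eq, nsq_eq, Fin.sum_univ_two, Fin.sum_univ_two, Fin.sum_univ_two]
  generalize (u 0).re = a1
  generalize (u 0).im = b1
  generalize (u 1).re = a2
  generalize (u 1).im = b2
  generalize (v 0).re = c1
  generalize (v 0).im = d1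
  generalize (v 1).re = c2
  generalize (v 1).im = d2
  nlinarith [sq_nonneg (a1 * d1 - b1 * c1), sq_nonneg (a1 * c2 - a2 * c1),
    sq_nonneg (a1 * d2 - b2 * c1), sq_nonneg (b1 * c2 - a2 * d1), sq_nonneg (b1 * d2 - b2 * d1),
    sq_nonneg (a2 * d2 - b2 * c2)]

theorem pair_smul (u v : S2) (c : ℝ) : pair u (((c : ℝ) : ℂ) • v) = c * pair u v := by
  rw [pair_eq, pair_eq, Finset.mul_sum]
  refine Finset.sum_congr rfl fun s _ => ?_
  simp [Complex.mul_re, Complex.mul_im]
  ring

theorem pair_sum {κ : Type*} (u : S2) (T : Finset κ) (v : κ → S2) :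
    pair u (∑ i ∈ T, v i) = ∑ i ∈ T, pair u (v i) := by
  classical
  simp only [pair_eq]
  rw [Finset.sum_comm]
  refine Finset.sum_congr rfl fun s _ => ?_
  rw [Finset.sum_apply, Complex.re_sum, Complex.im_sum, Finset.mul_sum, Finset.mul_sum,
    ← Finset.sum_add_distrib]

/-- Young: `2 X ≤ t a + b / t` if `X² ≤ a b`. -/
theorem young {X a b t : ℝ} (ht : 0 < t) (ha : 0 ≤ a) (hb : 0 ≤ b) (h : X ^ 2 ≤ a * b) :
    2 * X ≤ t * a + b / t := by
  have h1 : (2 * X) ^ 2 ≤ (t * a + b / t) ^ 2 := by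
    have h2 : (t * a + b / t) ^ 2 = (t * a - b / t) ^ 2 + 4 * (a * b) := by
      field_simp
      ring
    rw [h2]
    nlinarith [sq_nonneg (t * a - b / t)]
  have h3 : 0 ≤ t * a + b / t := by positivity
  exact le_trans (le_abs_self _) (abs_le_of_sq_le_sq h1 h3)

/-! ### the class of nice functions -/

section nice

variable {ι : Type} [Fintype ι] [DecidableEq ι]

theorem nf_zero : NF (fun (_ : ι → ℝ) (_ : X3) => (0 : ℝ)) := by
  refine ⟨continuous_const, 0, 0, 0, le_rfl, fun y x => ⟨by simp, fun _ => rfl⟩⟩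

theorem nf_sum (hNFC : NfcStmt) {κ : Type*} (T : Finset κ) (F : κ → (ι → ℝ) → X3 → ℝ)
    (h : ∀ i ∈ T, NF (F i)) : NF (fun y x => ∑ i ∈ T, F i y x) := by
  classical
  induction T using Finset.induction with
  | empty => simpa using (nf_zero (ι := ι))
  | insert a s ha ih =>
    have h1 := ((hNFC ι (F a) (h a (Finset.mem_insert_self a s))).1 _
      (ih fun i hi => h i (Finset.mem_insert_of_mem hi))).1
    simpa [Finset.sum_insert ha] using h1

theorem nf_re (hSNF : SnfStmt) {phi : (ι → ℝ) → X3 → S2} (h : WW phi) (s : Fin 2) :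
    NF (fun y x => (phi y x s).re) := (hSNF ι _ (h s)).1

theorem nf_im (hSNF : SnfStmt) {phi : (ι → ℝ) → X3 → S2} (h : WW phi) (s : Fin 2) :
    NF (fun y x => (phi y x s).im) := by
  have h1 : ((-I) • (fun y x => phi y x s) : (ι → ℝ) → X3 → ℂ) ∈ SS ι :=
    Submodule.smul_mem _ _ (h s)
  have h2 := (hSNF ι _ h1).1
  have h3 : (fun (y : ι → ℝ) (x : X3) => (((-I) • (fun y x => phi y x s) :
      (ι → ℝ) → X3 → ℂ) y x).re) = fun y x => (phi y x s).im := by
    funext y x
    simp
  rw [h3] at h2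
  exact h2

theorem nf_pair (hSNF : SnfStmt) (hNFC : NfcStmt) {phi chi : (ι → ℝ) → X3 → S2}
    (h : WW phi) (h' : WW chi) : NF (fun y x => pair (phi y x) (chi y x)) := by
  have h1 : NF (fun y x => ∑ s, ((phi y x s).re * (chi y x s).re
      + (phi y x s).im * (chi y x s).im)) := by
    refine nf_sum hNFC Finset.univ (fun s y x => (phi y x s).re * (chi y x s).re
      + (phi y x s).im * (chi y x s).im) ?_
    intro s _
    have a1 := ((hNFC ι _ (nf_re hSNF h s)).1 _ (nf_re hSNF h' s)).2
    have a2 := ((hNFC ι _ (nf_im hSNF h s)).1 _ (nf_im hSNF h' s)).2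
    exact ((hNFC ι _ a1).1 _ a2).1
  have h2 : (fun (y : ι → ℝ) (x : X3) => pair (phi y x) (chi y x)) = fun y x =>
      ∑ s, ((phi y x s).re * (chi y x s).re + (phi y x s).im * (chi y x s).im) := by
    funext y x
    exact pair_eq _ _
  rw [h2]
  exact h1

theorem nf_nsq (hSNF : SnfStmt) (hNFC : NfcStmt) {phi : (ι → ℝ) → X3 → S2}
    (h : WW phi) : NF (fun y x => nsq (phi y x)) := by
  have h1 := nf_pair hSNF hNFC h h
  have h2 : (fun (y : ι → ℝ) (x : X3) => nsq (phi y x)) = fun y x =>
      pair (phi y x) (phi y x) := by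
    funext y x
    rw [pair_eq, nsq_eq]
  rw [h2]
  exact h1

theorem nf_pb (hNFC : NfcStmt) {F : (ι → ℝ) → X3 → ℝ} (hF : NF F) {g : (ι → ℝ) → ℝ}
    (hg : PB g) : NF (fun y x => g y * F y x) := (hNFC ι F hF).2.1 g hg

theorem nf_add (hNFC : NfcStmt) {F G : (ι → ℝ) → X3 → ℝ} (hF : NF F) (hG : NF G) :
    NF (fun y x => F y x + G y x) := ((hNFC ι F hF).1 G hG).1

theorem nf_int {F : (ι → ℝ) → X3 → ℝ} (hF : NF F) (y : ι → ℝ) :
    Integrable (fun x => F y x) := by
  obtain ⟨hc, C, m, R, hC, hb⟩ := hF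
  have h1 : Continuous fun x => F y x := hc.comp (Continuous.prodMk_right y)
  refine h1.integrable_of_hasCompactSupport ?_
  refine HasCompactSupport.intro (isCompact_closedBall (0 : X3) R) fun x hx => ?_
  refine (hb y x).2 ?_
  rw [Metric.mem_closedBall, dist_zero_right, not_le] at hx
  exact hx.le

theorem II_add (hNFI : NfiStmt) {F G : (ι → ℝ) → X3 → ℝ} (hF : NF F) (hG : NF G) :
    II (fun y x => F y x + G y x) = II F + II G :=
  integral_add (hNFI ι F hF) (hNFI ι G hG)

theorem II_mul (c : ℝ) (F : (ι → ℝ) → X3 → ℝ) :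
    II (fun y x => c * F y x) = c * II F :=
  integral_const_mul c _

theorem II_mono (hNFI : NfiStmt) {F G : (ι → ℝ) → X3 → ℝ} (hF : NF F) (hG : NF G)
    (h : ∀ y x, F y x ≤ G y x) : II F ≤ II G :=
  integral_mono (hNFI ι F hF) (hNFI ι G hG) fun z => h z.1 z.2

theorem cs_of_mem (q : (ι → ℝ) → X3 → ℂ) (hq : q ∈ SS ι) (y : ι → ℝ) : CS (q y) := by
  refine Submodule.span_induction (p := fun q _ => CS (q y)) ?_ ?_ ?_ ?_ hq
  · rintro q ⟨P, f, hf, rfl⟩
    refine ⟨contDiff_const.mul hf.1, ?_⟩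
    exact hf.2.mul_left
  · exact ⟨contDiff_const, HasCompactSupport.zero⟩
  · intro a b _ _ ha hb
    exact ⟨ha.1.add hb.1, ha.2.add hb.2⟩
  · intro c a _ ha
    refine ⟨contDiff_const.mul ha.1, ?_⟩
    exact ha.2.mul_left

end nice

/-! ### the field -/

section field

variable {cut L : ℝ}

theorem VV_smul (alpha : ℝ) (P : Polarization L) (c : ℝ) (y : Mode cut L → ℝ) (x : X3) :
    VV alpha P (fun i => c * y i) x = c • VV alpha P y x := by
  funext j
  simp only [VV, Pi.smul_apply, smul_eq_mul]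
  have h1 : ∑ i : Mode cut L, c * y i * (am i * Real.cos (dot (kk i) x - tt i) * P.e i.1 i.2 j) =
      c * ∑ i : Mode cut L, y i * (am i * Real.cos (dot (kk i) x - tt i) * P.e i.1 i.2 j) := by
    rw [Finset.mul_sum]
    refine Finset.sum_congr rfl fun i _ => ?_
    ring
  rw [h1]
  ring

theorem VV_sum (alpha : ℝ) (P : Polarization L) (y : Mode cut L → ℝ) (x : X3) :
    VV alpha P y x = ∑ i, y i • VV alpha P (Pi.single i 1 : Mode cut L → ℝ) x := by
  funext j
  rw [Finset.sum_apply]
  simp only [VV, Pi.smul_apply, smul_eq_mul]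
  rw [Finset.mul_sum]
  refine Finset.sum_congr rfl fun i _ => ?_
  have h1 : ∑ k : Mode cut L, (Pi.single i 1 : Mode cut L → ℝ) k *
      (am k * Real.cos (dot (kk k) x - tt k) * P.e k.1 k.2 j) =
      am i * Real.cos (dot (kk i) x - tt i) * P.e i.1 i.2 j := by
    rw [Finset.sum_eq_single i]
    · simp
    · intro k _ hk
      simp [Pi.single_eq_of_ne hk]
    · intro h
      exact absurd (Finset.mem_univ i) h
  rw [h1]
  ring

theorem sl_VV (alpha : ℝ) (P : Polarization L) (y : Mode cut L → ℝ) (x : X3) (u w : S2) :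
    pair w (sl (VV alpha P y x) u) =
      ∑ i, y i * pair w (sl (VV alpha P (Pi.single i 1 : Mode cut L → ℝ) x) u) := by
  have h1 : sl (VV alpha P y x) u = ∑ i, ((y i : ℝ) : ℂ) •
      sl (VV alpha P (Pi.single i 1 : Mode cut L → ℝ) x) u := by
    rw [VV_sum alpha P y x, sl_sum, LinearMap.sum_apply]
    refine Finset.sum_congr rfl fun i _ => ?_
    rw [sl_smul, LinearMap.smul_apply]
  rw [h1, pair_sum]
  exact Finset.sum_congr rfl fun i _ => pair_smul _ _ _

end field

/-- **Row VIR.** -/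
theorem vir (hSNF : SnfStmt) (hNFC : NfcStmt) (hNFI : NfiStmt) (hFUB : FubStmt) (hPAU : PauStmt)
    (hCRL : CrlStmt) (hHEL : HelStmt) (hDOY : DoyStmt) (hVI1 : Vi1Stmt) (hTHE : TheStmt) :
    VirStmt := by
  intro cut L alpha P psi hL hcut hpsi s t hs ht
  obtain ⟨hD, hcov, hdY, hcom⟩ := hDOY cut L alpha P psi hpsi
  obtain ⟨hth, hth01, v', hv, hv', hder, hvb, hdb⟩ := hTHE cut L s P hL hcut hs
  -- wave function `sl (VV (single i 1)) psi`
  have hsl : ∀ i : Mode cut L, WW (fun y x =>
      sl (VV alpha P (Pi.single i 1 : Mode cut L → ℝ) x) (psi y x)) := by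
    intro i r
    have h1 : (fun (y : Mode cut L → ℝ) (x : X3) =>
        sl (VV alpha P (Pi.single i 1 : Mode cut L → ℝ) x) (psi y x) r) =
        (fun y x => dY2 i (DD alpha P psi) y x r) - (fun y x => DD alpha P (dY2 i psi) y x r) := by
      funext y x
      have h2 := hcom i y x
      have h3 : sl (VV alpha P (Pi.single i 1 : Mode cut L → ℝ) x) (psi y x) =
          dY2 i (DD alpha P psi) y x - DD alpha P (dY2 i psi) y x := by
        rw [h2]; abel
      rw [h3]
      rfl
    rw [h1]
    exact Submodule.sub_mem _ ((hDOY cut L alpha P _ hD).2.2.1 i r)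
      ((hDOY cut L alpha P _ (hdY i)).1 r)
  -- nice functions
  have nD : NF (fun y x => nsq (DD alpha P psi y x)) := nf_nsq hSNF hNFC hD
  have npsi : NF (fun y x => nsq (psi y x)) := nf_nsq hSNF hNFC hpsi
  have nP : NF (fun y x => PP alpha P psi y x) :=
    nf_sum hNFC Finset.univ (fun j y x => nsq (cov (VV alpha P y) j (psi y) x))
      fun j _ => nf_nsq hSNF hNFC (hcov j)
  have nG : NF (fun y x => ∑ i, nsq (dY2 i psi y x)) :=
    nf_sum hNFC Finset.univ (fun i y x => nsq (dY2 i psi y x)) fun i _ => nf_nsq hSNF hNFC (hdY i)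
  have nDp : NF (fun y x => pair (DD alpha P psi y x) (psi y x)) := nf_pair hSNF hNFC hD hpsi
  have nB' : NF (fun y x => pair (psi y x)
      (sl (VV alpha P (fun i => th s y * HC P y i) x) (psi y x))) := by
    have h1 : NF (fun (y : Mode cut L → ℝ) (x : X3) => ∑ i, (th s y * HC P y i) * pair (psi y x)
        (sl (VV alpha P (Pi.single i 1 : Mode cut L → ℝ) x) (psi y x))) :=
      nf_sum hNFC Finset.univ (fun (i : Mode cut L) (y : Mode cut L → ℝ) (x : X3) =>
        (th s y * HC P y i) * pair (psi y x)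
        (sl (VV alpha P (Pi.single i 1 : Mode cut L → ℝ) x) (psi y x)))
        fun i _ => nf_pb hNFC (nf_pair hSNF hNFC hpsi (hsl i)) (hv i)
    have h2 : (fun (y : Mode cut L → ℝ) (x : X3) => pair (psi y x)
        (sl (VV alpha P (fun i => th s y * HC P y i) x) (psi y x))) = fun y x =>
        ∑ i, (th s y * HC P y i) * pair (psi y x)
        (sl (VV alpha P (Pi.single i 1 : Mode cut L → ℝ) x) (psi y x)) := by
      funext y x
      exact sl_VV alpha P _ x _ _
    rw [h2]
    exact h1
  have nthP : NF (fun y x => th s y * PP alpha P psi y x) := nf_pb hNFC nP hth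
  have nthD : NF (fun y x => th s y * nsq (DD alpha P psi y x)) := nf_pb hNFC nD hth
  have nX : NF (fun y x => ∑ i, (th s y * HC P y i) * pair (DD alpha P psi y x) (dY2 i psi y x)) :=
    nf_sum hNFC Finset.univ (fun (i : Mode cut L) (y : Mode cut L → ℝ) (x : X3) =>
      (th s y * HC P y i) * pair (DD alpha P psi y x) (dY2 i psi y x))
      fun i _ => nf_pb hNFC (nf_pair hSNF hNFC hD (hdY i)) (hv i)
  have pdiv : PB (fun y : Mode cut L → ℝ => ∑ i, (v' y i - y i * (th s y * HC P y i))) :=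
    PB.sum Finset.univ fun i _ => (hv' i).sub ((PB.coord i).mul (hv i))
  have nZ : NF (fun y x => (∑ i, (v' y i - y i * (th s y * HC P y i))) *
      pair (DD alpha P psi y x) (psi y x)) := nf_pb hNFC nDp pdiv
  have pnn : PB (fun y : Mode cut L → ℝ => 1 + nn y / s) := by
    have h1 : PB (fun y : Mode cut L → ℝ => nn y) :=
      PB.sum Finset.univ fun i _ => (PB.coord i).pow 2
    have h2 := (PB.const (n := Mode cut L) 1).add (h1.const_mul s⁻¹)
    have h3 : (fun y : Mode cut L → ℝ => 1 + nn y / s) = fun y => 1 + s⁻¹ * nn y := by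
      funext y
      rw [div_eq_inv_mul]
    rw [h3]
    exact h2
  have nN : NF (fun y x => (1 + nn y / s) * nsq (psi y x)) := nf_pb hNFC npsi pnn
  -- Pauli
  have key1 : II (fun y x => th s y * PP alpha P psi y x +
      pair (psi y x) (sl (VV alpha P (fun i => th s y * HC P y i) x) (psi y x))) =
      II (fun y x => th s y * nsq (DD alpha P psi y x)) := by
    refine (hFUB (Mode cut L) _ _ (nf_add hNFC nthP nB') nthD).1 fun y => ?_
    have hV := hCRL cut L alpha P y
    have h1 := hPAU (VV alpha P y) hV.1 (psi y) (fun r => cs_of_mem _ (hpsi r) y)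
    have h2 : ∀ x, pair (psi y x) (sl (VV alpha P (fun i => th s y * HC P y i) x) (psi y x)) =
        th s y * pair (psi y x) (sl (curl (VV alpha P y) x) (psi y x)) := by
      intro x
      rw [VV_smul, sl_smul, LinearMap.smul_apply, pair_smul, hV.2 x, (hHEL cut L P hL).1 alpha y x]
    have i1 : Integrable (fun x => th s y * PP alpha P psi y x) := nf_int nthP y
    have i2 : Integrable (fun x => pair (psi y x)
        (sl (VV alpha P (fun i => th s y * HC P y i) x) (psi y x))) := nf_int nB' y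
    rw [integral_add i1 i2]
    have e1 : ∫ x, th s y * PP alpha P psi y x = th s y * ∫ x, PP alpha P psi y x :=
      integral_const_mul _ _
    have e2 : ∫ x, pair (psi y x) (sl (VV alpha P (fun i => th s y * HC P y i) x) (psi y x)) =
        th s y * ∫ x, pair (psi y x) (sl (curl (VV alpha P y) x) (psi y x)) := by
      rw [← integral_const_mul]
      exact integral_congr_ae (Filter.Eventually.of_forall h2)
    have e3 : ∫ x, th s y * nsq (DD alpha P psi y x) = th s y * ∫ x, nsq (DD alpha P psi y x) :=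
      integral_const_mul _ _
    rw [e1, e2, e3, ← mul_add]
    congr 1
    exact h1.symm
  rw [II_add hNFI nthP nB'] at key1
  have key2 := hVI1 cut L alpha P psi hpsi (fun y i => th s y * HC P y i) v' hv hv' hder
  -- pointwise bounds
  have key3 : II (fun y x => th s y * nsq (DD alpha P psi y x) +
      (2 * (∑ i, (th s y * HC P y i) * pair (DD alpha P psi y x) (dY2 i psi y x)) +
        (∑ i, (v' y i - y i * (th s y * HC P y i))) * pair (DD alpha P psi y x) (psi y x))) ≤
      II (fun y x => (1 + 2 * t) * nsq (DD alpha P psi y x) +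
        (4 * cut ^ 2 / (s * t) * (∑ i, nsq (dY2 i psi y x)) +
          2 * cut ^ 2 / t * ((1 + nn y / s) * nsq (psi y x)))) := by
    have c1 : PB (fun _ : Mode cut L → ℝ => (2 : ℝ)) := PB.const 2
    have c2 : PB (fun _ : Mode cut L → ℝ => (1 + 2 * t)) := PB.const _
    have c3 : PB (fun _ : Mode cut L → ℝ => 4 * cut ^ 2 / (s * t)) := PB.const _
    have c4 : PB (fun _ : Mode cut L → ℝ => 2 * cut ^ 2 / t) := PB.const _
    refine II_mono hNFI (nf_add hNFC nthD (nf_add hNFC (nf_pb hNFC nX c1) nZ))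
      (nf_add hNFC (nf_pb hNFC nD c2) (nf_add hNFC (nf_pb hNFC nG c3) (nf_pb hNFC nN c4))) ?_
    intro y x
    have hD0 : 0 ≤ nsq (DD alpha P psi y x) := nsq_nonneg _
    have hG0 : 0 ≤ ∑ i, nsq (dY2 i psi y x) := Finset.sum_nonneg fun i _ => nsq_nonneg _
    have hp0 : 0 ≤ nsq (psi y x) := nsq_nonneg _
    have a1 : th s y * nsq (DD alpha P psi y x) ≤ nsq (DD alpha P psi y x) :=
      mul_le_of_le_one_left hD0 (hth01 y).2
    have a2 : 2 * (∑ i, (th s y * HC P y i) * pair (DD alpha P psi y x) (dY2 i psi y x)) ≤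
        t * nsq (DD alpha P psi y x) + (4 * cut ^ 2 / s * ∑ i, nsq (dY2 i psi y x)) / t := by
      refine young ht hD0 (by positivity) ?_
      calc (∑ i, (th s y * HC P y i) * pair (DD alpha P psi y x) (dY2 i psi y x)) ^ 2
          ≤ (∑ i, (th s y * HC P y i) ^ 2) *
            ∑ i, pair (DD alpha P psi y x) (dY2 i psi y x) ^ 2 :=
            Finset.sum_mul_sq_le_sq_mul_sq _ _ _
        _ ≤ (4 * cut ^ 2 / s) * ∑ i, nsq (DD alpha P psi y x) * nsq (dY2 i psi y x) := by
            refine mul_le_mul (hvb y) (Finset.sum_le_sum fun i _ => pair_sq_le _ _)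
              (Finset.sum_nonneg fun i _ => sq_nonneg _) (by positivity)
        _ = nsq (DD alpha P psi y x) * (4 * cut ^ 2 / s * ∑ i, nsq (dY2 i psi y x)) := by
            rw [← Finset.mul_sum]; ring
    have a3 : (∑ i, (v' y i - y i * (th s y * HC P y i))) * pair (DD alpha P psi y x) (psi y x) ≤
        t * nsq (DD alpha P psi y x) + (2 * cut ^ 2 * (1 + nn y / s) * nsq (psi y x)) / t := by
      set d := ∑ i, (v' y i - y i * (th s y * HC P y i)) with hd
      have hnn : 0 ≤ nn y := Finset.sum_nonneg fun i _ => sq_nonneg _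
      have b1 : (d * pair (DD alpha P psi y x) (psi y x) / 2) ^ 2 ≤
          nsq (DD alpha P psi y x) * (2 * cut ^ 2 * (1 + nn y / s) * nsq (psi y x)) := by
        have b2 := pair_sq_le (DD alpha P psi y x) (psi y x)
        have b3 : d ^ 2 ≤ 8 * cut ^ 2 * (1 + nn y / s) := hdb y
        calc (d * pair (DD alpha P psi y x) (psi y x) / 2) ^ 2
            = (1 / 4) * (d ^ 2 * pair (DD alpha P psi y x) (psi y x) ^ 2) := by ring
          _ ≤ (1 / 4) * ((8 * cut ^ 2 * (1 + nn y / s)) *
              (nsq (DD alpha P psi y x) * nsq (psi y x))) := by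
              refine mul_le_mul_of_nonneg_left ?_ (by norm_num)
              exact mul_le_mul b3 b2 (sq_nonneg _) (by positivity)
          _ = _ := by ring
      have b4 := young ht hD0 (by positivity) b1
      linarith
    have e1 : (4 * cut ^ 2 / s * ∑ i, nsq (dY2 i psi y x)) / t =
        4 * cut ^ 2 / (s * t) * ∑ i, nsq (dY2 i psi y x) := by
      field_simp
    have e2 : (2 * cut ^ 2 * (1 + nn y / s) * nsq (psi y x)) / t =
        2 * cut ^ 2 / t * ((1 + nn y / s) * nsq (psi y x)) := by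
      ring
    rw [e1] at a2
    rw [e2] at a3
    linarith
  have c1 : PB (fun _ : Mode cut L → ℝ => (2 : ℝ)) := PB.const 2
  have c2 : PB (fun _ : Mode cut L → ℝ => (1 + 2 * t)) := PB.const _
  have c3 : PB (fun _ : Mode cut L → ℝ => 4 * cut ^ 2 / (s * t)) := PB.const _
  have c4 : PB (fun _ : Mode cut L → ℝ => 2 * cut ^ 2 / t) := PB.const _
  have n2 := nf_pb hNFC nX c1
  have m2 := nf_pb hNFC nD c2
  have m3 := nf_pb hNFC nG c3
  have m4 := nf_pb hNFC nN c4
  rw [II_add hNFI nthD (nf_add hNFC n2 nZ), II_add hNFI n2 nZ,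
    II_add hNFI m2 (nf_add hNFC m3 m4), II_add hNFI m3 m4, II_mul, II_mul, II_mul, II_mul] at key3
  linarith

end Pool.Agent.MBX.H40
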